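/-
helper96.  WB-MA12: four point inequality of `H^4` and geodesic lines (part M of helper21's project,
sub-lead helper88).
-/
import Pool.Agent.helper88.WB.MDefs
import Pool.Agent.helper19.WB.B1a

set_option autoImplicit false
open Matrix MeasureTheory Filter Topology

namespace Pool.Agent.helper88.WB
open Pool.Agent.helper21.WB

namespace MA12

/-- height of a point seen from the null vector `(0,0,0,-1;1)` -/
noncomputable def ht (x : X) : ℝ := (x 3 + lift x o)⁻¹

/-- horizontal part -/
noncomputable def xi (x : X) : EuclideanSpace ℝ (Fin 3) :=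
  WithLp.toLp 2 ![ht x * x 0, ht x * x 1, ht x * x 2]

theorem al_pos (x : X) : 0 < x 3 + lift x o := by
  have h1 := lift_o_sq x
  have h2 := lift_o_pos x
  rw [Fin.sum_univ_four] at h1
  nlinarith [sq_nonneg (x 0), sq_nonneg (x 1), sq_nonneg (x 2), sq_nonneg (x 3)]

theorem ht_pos (x : X) : 0 < ht x := inv_pos.2 (al_pos x)

noncomputable def M (x y : X) : ℝ := ‖xi x - xi y‖ + ht x + ht y

theorem M_nonneg (x y : X) : 0 < M x y := by
  have h1 := ht_pos x
  have h2 := ht_pos y
  have h3 := norm_nonneg (xi x - xi y)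
  unfold M; linarith

theorem M_comm (x y : X) : M x y = M y x := by
  unfold M; rw [norm_sub_rev]; ring

theorem M_triangle (x y z : X) : M x z ≤ M x y + M y z := by
  have h1 := ht_pos y
  have h2 : ‖xi x - xi z‖ ≤ ‖xi x - xi y‖ + ‖xi y - xi z‖ := norm_sub_le_norm_sub_add_norm_sub _ _ _
  unfold M; linarith

theorem norm_sq (x y : X) : ‖xi x - xi y‖ ^ 2 =
    (ht x * x 0 - ht y * y 0) ^ 2 + (ht x * x 1 - ht y * y 1) ^ 2 + (ht x * x 2 - ht y * y 2) ^ 2 := by
  rw [EuclideanSpace.norm_sq_eq, Fin.sum_univ_three]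
  simp [xi]

theorem ch_eq (x y : X) : 2 * ht x * ht y * ch x y = ‖xi x - xi y‖ ^ 2 + ht x ^ 2 + ht y ^ 2 := by
  rw [norm_sq]
  have hx := al_pos x
  have hy := al_pos y
  have h1 := lift_o_sq x
  have h2 := lift_o_sq y
  rw [Fin.sum_univ_four] at h1 h2
  unfold ch
  rw [bl_apply, Fin.sum_univ_four]
  simp only [lift_inl]
  unfold ht
  set a := lift x o
  set b := lift y o
  have hx' : x 3 + a ≠ 0 := hx.ne'
  have hy' : y 3 + b ≠ 0 := hy.ne'
  have e1 : a ^ 2 = 1 + (x 0 ^ 2 + x 1 ^ 2 + x 2 ^ 2 + x 3 ^ 2) := h1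
  have e2 : b ^ 2 = 1 + (y 0 ^ 2 + y 1 ^ 2 + y 2 ^ 2 + y 3 ^ 2) := h2
  have e3 : x 0 ^ 2 + x 1 ^ 2 + x 2 ^ 2 = (a - x 3) * (x 3 + a) - 1 := by linarith [e1]; 
  have e4 : y 0 ^ 2 + y 1 ^ 2 + y 2 ^ 2 = (b - y 3) * (y 3 + b) - 1 := by linarith [e2]
  field_simp
  have key : 2 * (-(x 0 * y 0 + x 1 * y 1 + x 2 * y 2 + x 3 * y 3 - a * b)) * (x 3 + a) * (y 3 + b)
      = (y 3 + b) ^ 2 * (x 0 ^ 2 + x 1 ^ 2 + x 2 ^ 2 + 1) + (x 3 + a) ^ 2 * (y 0 ^ 2 + y 1 ^ 2 + y 2 ^ 2 + 1)
        - 2 * (x 3 + a) * (y 3 + b) * (x 0 * y 0 + x 1 * y 1 + x 2 * y 2) := by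
    rw [e3, e4]; ring
  nlinarith [key]

theorem N_le_M (x y : X) : 2 * ht x * ht y * ch x y ≤ M x y ^ 2 := by
  rw [ch_eq]
  have h1 := ht_pos x
  have h2 := ht_pos y
  have h3 := norm_nonneg (xi x - xi y)
  unfold M
  nlinarith [mul_pos h1 h2, mul_nonneg h3 h1.le, mul_nonneg h3 h2.le]

theorem M_le_N (x y : X) : M x y ^ 2 ≤ 3 * (2 * ht x * ht y * ch x y) := by
  rw [ch_eq]
  unfold M
  nlinarith [sq_nonneg (‖xi x - xi y‖ - ht x), sq_nonneg (‖xi x - xi y‖ - ht y),
    sq_nonneg (ht x - ht y)]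

theorem M_four (x y z w : X) : M x y * M z w ≤ 4 * max (M x z * M y w) (M x w * M y z) := by
  have p1 := M_nonneg x y
  have p2 := M_nonneg z w
  have p3 := M_nonneg x z
  have p4 := M_nonneg y w
  have p5 := M_nonneg x w
  have p6 := M_nonneg y z
  -- minimum of the four factors
  have t1 := M_triangle x z y
  have t2 := M_triangle x w y
  have t3 := M_triangle z x w
  have t4 := M_triangle z y w
  rw [M_comm z y] at t1
  rw [M_comm w y] at t2
  rw [M_comm z x] at t3
  rw [M_comm z y] at t4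
  by_cases c1 : M x z ≤ M y z ∧ M x z ≤ M x w
  · -- M x z small
    have h1 : M x y ≤ 2 * M y z := by linarith [c1.1]
    have h2 : M z w ≤ 2 * M x w := by linarith [c1.2]
    have h3 : M x y * M z w ≤ (2 * M y z) * (2 * M x w) := by gcongr
    have h4 := le_max_right (M x z * M y w) (M x w * M y z)
    nlinarith
  by_cases c2 : M y w ≤ M x w ∧ M y w ≤ M y z
  · have h1 : M x y ≤ 2 * M x w := by linarith [c2.1]
    have h2 : M z w ≤ 2 * M y z := by linarith [c2.2]
    have h3 : M x y * M z w ≤ (2 * M x w) * (2 * M y z) := by gcongr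
    have h4 := le_max_right (M x z * M y w) (M x w * M y z)
    nlinarith
  by_cases c3 : M x w ≤ M y w ∧ M x w ≤ M x z
  · have h1 : M x y ≤ 2 * M y w := by linarith [c3.1]
    have h2 : M z w ≤ 2 * M x z := by linarith [c3.2]
    have h3 : M x y * M z w ≤ (2 * M y w) * (2 * M x z) := by gcongr
    have h4 := le_max_left (M x z * M y w) (M x w * M y z)
    nlinarith
  by_cases c4 : M y z ≤ M x z ∧ M y z ≤ M y w
  · have h1 : M x y ≤ 2 * M x z := by linarith [c4.1]
    have h2 : M z w ≤ 2 * M y w := by linarith [c4.2]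
    have h3 : M x y * M z w ≤ (2 * M x z) * (2 * M y w) := by gcongr
    have h4 := le_max_left (M x z * M y w) (M x w * M y z)
    nlinarith
  exfalso
  -- the minimum exists
  rcases le_total (M x z) (M y w) with a | a <;> rcases le_total (M x w) (M y z) with b | b <;>
    rcases le_total (M x z) (M x w) with c | c <;> rcases le_total (M y w) (M y z) with d | d <;>
    rcases le_total (M x z) (M y z) with e | e <;> rcases le_total (M y w) (M x w) with f | f <;>
    first
      | exact c1 ⟨by linarith, by linarith⟩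
      | exact c2 ⟨by linarith, by linarith⟩
      | exact c3 ⟨by linarith, by linarith⟩
      | exact c4 ⟨by linarith, by linarith⟩

theorem ch_four (x y z w : X) :
    ch x y * ch z w ≤ 144 * max (ch x z * ch y w) (ch x w * ch y z) := by
  have hx := ht_pos x
  have hy := ht_pos y
  have hz := ht_pos z
  have hw := ht_pos w
  have c1 := one_le_ch x y
  have c2 := one_le_ch z w
  have c3 := one_le_ch x z
  have c4 := one_le_ch y w
  have c5 := one_le_ch x w
  have c6 := one_le_ch y z
  set T := ht x * ht y * ht z * ht w with hT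
  have hTp : 0 < T := by positivity
  have h1 : 4 * T * (ch x y * ch z w) ≤ (M x y * M z w) ^ 2 := by
    have a := N_le_M x y
    have b := N_le_M z w
    calc 4 * T * (ch x y * ch z w) = (2 * ht x * ht y * ch x y) * (2 * ht z * ht w * ch z w) := by
          rw [hT]; ring
      _ ≤ M x y ^ 2 * M z w ^ 2 := by gcongr
      _ = _ := by ring
  have h2 : (M x z * M y w) ^ 2 ≤ 36 * T * (ch x z * ch y w) := by
    have a := M_le_N x z
    have b := M_le_N y w
    calc (M x z * M y w) ^ 2 = M x z ^ 2 * M y w ^ 2 := by ring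
      _ ≤ (3 * (2 * ht x * ht z * ch x z)) * (3 * (2 * ht y * ht w * ch y w)) := by gcongr
      _ = _ := by rw [hT]; ring
  have h3 : (M x w * M y z) ^ 2 ≤ 36 * T * (ch x w * ch y z) := by
    have a := M_le_N x w
    have b := M_le_N y z
    calc (M x w * M y z) ^ 2 = M x w ^ 2 * M y z ^ 2 := by ring
      _ ≤ (3 * (2 * ht x * ht w * ch x w)) * (3 * (2 * ht y * ht z * ch y z)) := by gcongr
      _ = _ := by rw [hT]; ring
  have h4 := M_four x y z w
  have p1 := M_nonneg x y
  have p2 := M_nonneg z w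
  have p3 := M_nonneg x z
  have p4 := M_nonneg y w
  have p5 := M_nonneg x w
  have p6 := M_nonneg y z
  have h5 : (M x y * M z w) ^ 2 ≤ 16 * max ((M x z * M y w) ^ 2) ((M x w * M y z) ^ 2) := by
    rcases le_total (M x z * M y w) (M x w * M y z) with h | h
    · rw [max_eq_right h] at h4
      have h6 : (M x y * M z w) ^ 2 ≤ (4 * (M x w * M y z)) ^ 2 := by gcongr
      have h7 := le_max_right ((M x z * M y w) ^ 2) ((M x w * M y z) ^ 2)
      nlinarith
    · rw [max_eq_left h] at h4
      have h6 : (M x y * M z w) ^ 2 ≤ (4 * (M x z * M y w)) ^ 2 := by gcongr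
      have h7 := le_max_left ((M x z * M y w) ^ 2) ((M x w * M y z) ^ 2)
      nlinarith
  have h6 : max ((M x z * M y w) ^ 2) ((M x w * M y z) ^ 2)
      ≤ 36 * T * max (ch x z * ch y w) (ch x w * ch y z) := by
    apply max_le
    · refine h2.trans ?_
      gcongr
      exact le_max_left _ _
    · refine h3.trans ?_
      gcongr
      exact le_max_right _ _
  have h7 : 4 * T * (ch x y * ch z w) ≤ 4 * T * (144 * max (ch x z * ch y w) (ch x w * ch y z)) := by
    calc 4 * T * (ch x y * ch z w) ≤ 16 * (36 * T * max (ch x z * ch y w) (ch x w * ch y z)) := by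
          linarith
      _ = _ := by ring
  exact le_of_mul_le_mul_left h7 (by positivity)

theorem half_exp_le_ch (x y : X) : Real.exp (hd x y) / 2 ≤ ch x y := by
  rw [← cosh_hd, Real.cosh_eq]
  have := Real.exp_pos (-(hd x y))
  linarith

theorem ch_le_exp (x y : X) : ch x y ≤ Real.exp (hd x y) := by
  rw [← cosh_hd, Real.cosh_eq]
  have : Real.exp (-(hd x y)) ≤ Real.exp (hd x y) := Real.exp_le_exp.2 (by linarith [hd_nonneg x y])
  linarith

end MA12

theorem four_point (x y z w : X) : hd x y + hd z w ≤ max (hd x z + hd y w) (hd x w + hd y z) + 7 := by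
  have h := MA12.ch_four x y z w
  have h1 : Real.exp (hd x y + hd z w) / 4 ≤ ch x y * ch z w := by
    have a := MA12.half_exp_le_ch x y
    have b := MA12.half_exp_le_ch z w
    have c := one_le_ch x y
    calc Real.exp (hd x y + hd z w) / 4 = (Real.exp (hd x y) / 2) * (Real.exp (hd z w) / 2) := by
          rw [Real.exp_add]; ring
      _ ≤ _ := by gcongr
  have h2 : max (ch x z * ch y w) (ch x w * ch y z)
      ≤ Real.exp (max (hd x z + hd y w) (hd x w + hd y z)) := by
    apply max_le
    · calc ch x z * ch y w ≤ Real.exp (hd x z) * Real.exp (hd y w) := by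
            have := one_le_ch y w
            have := MA12.ch_le_exp x z
            have := MA12.ch_le_exp y w
            gcongr
        _ = Real.exp (hd x z + hd y w) := (Real.exp_add _ _).symm
        _ ≤ _ := Real.exp_le_exp.2 (le_max_left _ _)
    · calc ch x w * ch y z ≤ Real.exp (hd x w) * Real.exp (hd y z) := by
            have := one_le_ch y z
            have := MA12.ch_le_exp x w
            have := MA12.ch_le_exp y z
            gcongr
        _ = Real.exp (hd x w + hd y z) := (Real.exp_add _ _).symm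
        _ ≤ _ := Real.exp_le_exp.2 (le_max_right _ _)
  have h3 : (576 : ℝ) ≤ Real.exp 7 := by
    have e1 : (2.7182818283 : ℝ) < Real.exp 1 := Real.exp_one_gt_d9
    have e2 : Real.exp 7 = Real.exp 1 ^ 7 := by rw [← Real.exp_nat_mul]; norm_num
    rw [e2]
    calc (576 : ℝ) ≤ 2.7 ^ 7 := by norm_num
      _ ≤ Real.exp 1 ^ 7 := by gcongr; linarith
  have h4 : Real.exp (hd x y + hd z w)
      ≤ Real.exp (max (hd x z + hd y w) (hd x w + hd y z) + 7) := by
    rw [Real.exp_add _ 7]
    have h5 := Real.exp_pos (max (hd x z + hd y w) (hd x w + hd y z))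
    nlinarith
  exact Real.exp_le_exp.1 h4

namespace MA12

theorem o_pos_of {w p : I → ℝ} (hp : bl p p < 0) (hp0 : 0 < p o) (hw : bl w w = -1)
    (h : bl p w < 0) : 0 < w o := by
  by_contra hcon
  push Not at hcon
  rcases hcon.lt_or_eq with h1 | h1
  · have := bl_neg (v := p) (w := (-1 : ℝ) • w) hp hp0
      (by rw [bl_smul_left, bl_smul_right, hw]; norm_num) (by simp only [Pi.smul_apply, smul_eq_mul]; linarith)
    rw [bl_smul_right] at this
    linarith
  · rw [bl_apply, h1] at hw
    have : 0 ≤ ∑ i : Fin 4, w (Sum.inl i) * w (Sum.inl i) :=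
      Finset.sum_nonneg (fun i _ => mul_self_nonneg _)
    linarith

/-- a unit speed geodesic from a unit tangent vector -/
theorem line_of {x : X} {v : I → ℝ} (hv : bl v v = 1) (hxv : bl (lift x) v = 0) :
    ∃ c : ℝ → X, (∀ s, lift (c s) = Real.cosh s • lift x + Real.sinh s • v) ∧ c 0 = x ∧
      ∀ s t, hd (c s) (c t) = |s - t| := by
  have hw : ∀ s t, bl (Real.cosh s • lift x + Real.sinh s • v) (Real.cosh t • lift x + Real.sinh t • v)
      = - Real.cosh (s - t) := by
    intro s t
    rw [bl_add_left, bl_add_right, bl_add_right, bl_smul_left, bl_smul_left, bl_smul_left,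
      bl_smul_left, bl_smul_right, bl_smul_right, bl_smul_right, bl_smul_right, bl_comm v (lift x),
      hxv, hv, bl_lift, Real.cosh_sub]
    ring
  have hpos : ∀ s, 0 < (Real.cosh s • lift x + Real.sinh s • v) o := by
    intro s
    refine o_pos_of (p := lift x) (by rw [bl_lift]; norm_num) (by linarith [lift_o_pos x]) ?_ ?_
    · rw [hw, sub_self, Real.cosh_zero]
    · rw [bl_add_right, bl_smul_right, bl_smul_right, hxv, bl_lift]
      have := Real.cosh_pos s
      linarith
  have hl : ∀ s, lift (fun i => (Real.cosh s • lift x + Real.sinh s • v) (Sum.inl i))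
      = Real.cosh s • lift x + Real.sinh s • v := by
    intro s
    refine (eq_lift ?_ (hpos s)).symm
    rw [hw, sub_self, Real.cosh_zero]
  refine ⟨fun s i => (Real.cosh s • lift x + Real.sinh s • v) (Sum.inl i), hl, ?_, ?_⟩
  · ext i
    simp [lift_inl]
  · intro s t
    unfold hd ch
    rw [hl, hl, hw, neg_neg, ← Real.cosh_abs, Real.arcosh_cosh (abs_nonneg _)]

theorem exists_tangent {x y : X} (h : x ≠ y) : ∃ v : I → ℝ, bl v v = 1 ∧ bl (lift x) v = 0 ∧
    lift y = Real.cosh (hd x y) • lift x + Real.sinh (hd x y) • v := by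
  have hd0 : 0 < hd x y := lt_of_le_of_ne (hd_nonneg x y) (fun e => h ((hd_eq_zero x y).1 e.symm))
  have hs : 0 < Real.sinh (hd x y) := Real.sinh_pos_iff.2 hd0
  have hxy : bl (lift x) (lift y) = - Real.cosh (hd x y) := by rw [cosh_hd]; unfold ch; ring
  set d := hd x y
  refine ⟨(Real.sinh d)⁻¹ • (lift y - Real.cosh d • lift x), ?_, ?_, ?_⟩
  · rw [bl_smul_left, bl_smul_right, bl_sub_left, bl_sub_right, bl_sub_right, bl_smul_left,
      bl_smul_left, bl_smul_right, bl_smul_right, bl_comm (lift y) (lift x), hxy, bl_lift, bl_lift]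
    have := Real.cosh_sq d
    field_simp
    nlinarith
  · rw [bl_smul_right, bl_sub_right, bl_smul_right, hxy, bl_lift]
    ring
  · rw [smul_smul, mul_inv_cancel₀ hs.ne', one_smul]
    simp

end MA12

theorem exists_line (x y : X) : ∃ c : ℝ → X, c 0 = x ∧ c (hd x y) = y ∧
    ∀ s t, hd (c s) (c t) = |s - t| := by
  by_cases h : x = y
  · subst h
    obtain ⟨z, hz⟩ : ∃ z : X, x ≠ z := ⟨fun i => x i + 1, fun e => by
      have := congrFun e 0
      simp at this⟩
    obtain ⟨v, hv, hxv, -⟩ := MA12.exists_tangent hz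
    obtain ⟨c, -, h0, hc⟩ := MA12.line_of hv hxv
    exact ⟨c, h0, by rw [hd_self]; exact h0, hc⟩
  · obtain ⟨v, hv, hxv, hy⟩ := MA12.exists_tangent h
    obtain ⟨c, hl, h0, hc⟩ := MA12.line_of hv hxv
    refine ⟨c, h0, lift_injective ?_, hc⟩
    rw [hl, ← hy]

end Pool.Agent.helper88.WB
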